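import Pool.Agent.Q211.AR.Defs

/-!
# Algebraic recurrence: general lemmas, lifting along surjective homomorphisms
-/

set_option autoImplicit false

open MeasureTheory Filter Topology
open scoped ENNReal

namespace Pool.Agent.Q211.AR

variable {G Q : Type} [Group G] [Group Q]

/-- `μ` is transient in a strong sense: eventually the identity is missing. -/
def Strong (μ : PMF G) : Prop := ∀ᵐ ω ∂(steps μ), ∃ n : ℕ, 1 ≤ n ∧ (1 : G) ∉ tail ω n

theorem prob_steps (μ : PMF G) : @IsProbabilityMeasure (ℕ → G)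
    (@MeasurableSpace.pi ℕ (fun _ => G) (fun _ => ⊤)) (steps μ) := by
  let _ : MeasurableSpace G := ⊤
  unfold steps
  infer_instance

theorem not_AR_of_Strong {μ : PMF G} (h : Strong μ) : ¬ AR μ := by
  intro hAR
  have h1 : ∀ᵐ ω ∂(steps μ), ∀ n : ℕ, 1 ≤ n → tail ω n = ⊤ := by
    rw [ae_all_iff]
    intro n
    by_cases hn : 1 ≤ n
    · filter_upwards [hAR n hn] with ω hω _ using hω
    · exact Filter.Eventually.of_forall fun ω hn' => absurd hn' hn
  have h2 : ∀ᵐ ω ∂(steps μ), False := by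
    filter_upwards [h1, h] with ω hω1 hω2
    obtain ⟨n, hn, hω3⟩ := hω2
    rw [hω1 n hn] at hω3
    exact hω3 (Subsemigroup.mem_top _)
  have h3 := prob_steps μ
  rw [ae_iff] at h2
  simp at h2

theorem pos_of_Strong {μ : PMF G} (h : Strong μ) :
    ∃ n : ℕ, 1 ≤ n ∧ 0 < steps μ {ω | tail ω n ≠ ⊤} := by
  by_contra hcon
  push Not at hcon
  refine not_AR_of_Strong h fun n hn => ?_
  rw [ae_iff]
  exact nonpos_iff_eq_zero.1 (hcon n hn)

theorem walk_map (φ : G →* Q) (ω : ℕ → G) (m : ℕ) :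
    walk (fun i => φ (ω i)) m = φ (walk ω m) := by
  unfold walk
  rw [map_list_prod, List.map_map]
  rfl

theorem tail_map (φ : G →* Q) (ω : ℕ → G) (n : ℕ) {g : G} (hg : g ∈ tail ω n) :
    φ g ∈ tail (fun i => φ (ω i)) n := by
  unfold tail at hg ⊢
  induction hg using Subsemigroup.closure_induction with
  | mem x hx =>
    obtain ⟨m, hm, rfl⟩ := hx
    exact Subsemigroup.subset_closure ⟨m, hm, (walk_map φ ω m).symm⟩
  | mul x y _ _ hx hy =>
    rw [map_mul]
    exact Subsemigroup.mul_mem _ hx hy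

theorem steps_map (φ : G → Q) (μ : PMF G) :
    @Measure.map (ℕ → G) (ℕ → Q) (@MeasurableSpace.pi ℕ (fun _ => G) (fun _ => ⊤))
      (@MeasurableSpace.pi ℕ (fun _ => Q) (fun _ => ⊤)) (fun ω i => φ (ω i)) (steps μ) =
      steps (μ.map φ) := by
  let _ : MeasurableSpace G := ⊤
  let _ : MeasurableSpace Q := ⊤
  have : DiscreteMeasurableSpace G := ⟨fun _ => trivial⟩
  unfold steps
  rw [Measure.infinitePi_map_pi (fun _ : ℕ => μ.toMeasure) (f := fun _ => φ)
    (fun _ => Measurable.of_discrete)]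
  congr 1
  funext i
  rw [PMF.toMeasure_map _ _ Measurable.of_discrete]

theorem Strong_lift (φ : G →* Q) (μ : PMF G) (h : Strong (μ.map φ)) : Strong μ := by
  let _ : MeasurableSpace G := ⊤
  let _ : MeasurableSpace Q := ⊤
  have : DiscreteMeasurableSpace G := ⟨fun _ => trivial⟩
  unfold Strong at h ⊢
  rw [← steps_map φ μ] at h
  have hm : Measurable (fun (ω : ℕ → G) (i : ℕ) => φ (ω i)) :=
    measurable_pi_lambda _ fun i => Measurable.of_discrete.comp (measurable_pi_apply i)
  have h2 := ae_of_ae_map hm.aemeasurable h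
  filter_upwards [h2] with ω hω
  obtain ⟨n, hn, h3⟩ := hω
  refine ⟨n, hn, fun h4 => h3 ?_⟩
  have := tail_map φ ω n h4
  rwa [map_one] at this

/-! ### A symmetric law of full support -/

theorem exists_full (G : Type) [Group G] [Countable G] :
    ∃ w : PMF G, (∀ g, w g ≠ 0) ∧ ∀ g, w g⁻¹ = w g := by
  classical
  obtain ⟨f, hf⟩ := exists_surjective_nat G
  have hgeo : HasSum (fun n : ℕ => ((1 / 2 : ℝ≥0∞)) ^ (n + 1)) 1 := by
    have h1 : ∑' n : ℕ, ((1 / 2 : ℝ≥0∞)) ^ (n + 1) = 1 := by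
      simp_rw [pow_succ]
      rw [ENNReal.tsum_mul_right, ENNReal.tsum_geometric]
      rw [one_div, ENNReal.one_sub_inv_two, inv_inv]
      exact ENNReal.mul_inv_cancel (by norm_num) (by norm_num)
    have h2 : HasSum (fun n : ℕ => ((1 / 2 : ℝ≥0∞)) ^ (n + 1))
        (∑' n : ℕ, ((1 / 2 : ℝ≥0∞)) ^ (n + 1)) := ENNReal.summable.hasSum
    rwa [h1] at h2
  let p : PMF ℕ := ⟨fun n => (1 / 2 : ℝ≥0∞) ^ (n + 1), hgeo⟩
  have hp : ∀ n, p n ≠ 0 := fun n => by
    show (1 / 2 : ℝ≥0∞) ^ (n + 1) ≠ 0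
    exact pow_ne_zero _ (by simp)
  let F : ℕ → Finset G := fun n => {f n, (f n)⁻¹}
  have hF : ∀ n, (F n).Nonempty := fun n => ⟨f n, by simp [F]⟩
  have hFi : ∀ n g, g⁻¹ ∈ F n ↔ g ∈ F n := by
    intro n g
    simp only [F, Finset.mem_insert, Finset.mem_singleton]
    constructor
    · rintro (h | h)
      · right; rw [← h, inv_inv]
      · left; exact inv_injective h
    · rintro (h | h)
      · right; rw [h]
      · left; rw [h, inv_inv]
  refine ⟨p.bind fun n => PMF.uniformOfFinset (F n) (hF n), ?_, ?_⟩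
  · intro g
    rw [← PMF.mem_support_iff, PMF.mem_support_bind_iff]
    obtain ⟨n, hn⟩ := hf g
    refine ⟨n, (PMF.mem_support_iff _ _).2 (hp n), ?_⟩
    rw [PMF.mem_support_uniformOfFinset_iff]
    simp [F, hn]
  · intro g
    rw [PMF.bind_apply, PMF.bind_apply]
    apply tsum_congr
    intro n
    congr 1
    rw [PMF.uniformOfFinset_apply, PMF.uniformOfFinset_apply]
    by_cases h : g ∈ F n
    · rw [if_pos h, if_pos ((hFi n g).2 h)]
    · rw [if_neg h, if_neg fun hh => h ((hFi n g).1 hh)]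

/-! ### Lifting admissible laws -/

section lift

variable (φ : G →* Q) (hφ : Function.Surjective φ) (w : PMF G) (hw : ∀ g, w g ≠ 0)
  (hs : ∀ g, w g⁻¹ = w g)

include hφ hw in
theorem fibre_nonempty (q : Q) : ∃ a ∈ φ ⁻¹' {q}, a ∈ w.support := by
  obtain ⟨g, hg⟩ := hφ q
  exact ⟨g, hg, (PMF.mem_support_iff _ _).2 (hw g)⟩

/-- `w` conditioned on the fibre over `q`. -/
noncomputable def fibre (q : Q) : PMF G := w.filter (φ ⁻¹' {q}) (fibre_nonempty φ hφ w hw q)

/-- The lift of a law on `Q`. -/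
noncomputable def lift (ν : PMF Q) : PMF G := ν.bind (fibre φ hφ w hw)

theorem fibre_map (q : Q) : (fibre φ hφ w hw q).map φ = PMF.pure q := by
  ext r
  rw [PMF.map_apply, PMF.pure_apply]
  by_cases hr : r = q
  · subst hr
    rw [if_pos rfl]
    rw [← (fibre φ hφ w hw r).tsum_coe]
    apply tsum_congr
    intro g
    by_cases hg : r = φ g
    · rw [if_pos hg]
    · rw [if_neg hg]
      unfold fibre
      rw [PMF.filter_apply_eq_zero_of_notMem]
      exact fun h => hg h.symm
  · rw [if_neg hr]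
    rw [ENNReal.tsum_eq_zero]
    intro g
    split_ifs with hg
    · unfold fibre
      rw [PMF.filter_apply_eq_zero_of_notMem]
      intro h
      exact hr (hg.trans h)
    · rfl

theorem lift_map (ν : PMF Q) : (lift φ hφ w hw ν).map φ = ν := by
  unfold lift
  rw [PMF.map_bind]
  simp_rw [fibre_map]
  exact PMF.bind_pure ν

theorem fibre_apply_self (g : G) : fibre φ hφ w hw (φ g) g =
    w g * (∑' g', (φ ⁻¹' {φ g}).indicator w g')⁻¹ := by
  unfold fibre
  rw [PMF.filter_apply, Set.indicator_of_mem]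
  rfl

theorem lift_apply (ν : PMF Q) (g : G) :
    lift φ hφ w hw ν g = ν (φ g) * fibre φ hφ w hw (φ g) g := by
  unfold lift
  rw [PMF.bind_apply, tsum_eq_single (φ g)]
  intro q hq
  unfold fibre
  rw [PMF.filter_apply_eq_zero_of_notMem, mul_zero]
  exact fun h => hq h.symm

include hs in
theorem lift_symm (ν : PMF Q) (hν : ∀ q, ν q⁻¹ = ν q) (g : G) :
    lift φ hφ w hw ν g⁻¹ = lift φ hφ w hw ν g := by
  rw [lift_apply, lift_apply, map_inv, hν, ← map_inv, fibre_apply_self, fibre_apply_self, hs]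
  congr 3
  rw [← Equiv.tsum_eq (Equiv.inv G)]
  apply tsum_congr
  intro g'
  simp only [Equiv.inv_apply]
  by_cases h : φ g' = φ g
  · rw [Set.indicator_of_mem (by simp [h]), Set.indicator_of_mem (by simp [h]), hs]
  · rw [Set.indicator_of_notMem (by simpa using h), Set.indicator_of_notMem (by simpa using h)]

theorem lift_support (ν : PMF Q) : (lift φ hφ w hw ν).support = φ ⁻¹' ν.support := by
  ext g
  rw [PMF.mem_support_iff, lift_apply, Set.mem_preimage, PMF.mem_support_iff]
  have h1 : fibre φ hφ w hw (φ g) g ≠ 0 := by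
    unfold fibre
    rw [PMF.filter_apply_ne_zero_iff]
    exact ⟨rfl, (PMF.mem_support_iff _ _).2 (hw g)⟩
  simp [h1]

include hφ in
theorem closure_preimage (S : Set Q) (hS : Subgroup.closure S = ⊤) (hne : S.Nonempty) :
    Subgroup.closure (φ ⁻¹' S) = ⊤ := by
  set C := Subgroup.closure (φ ⁻¹' S)
  have hker : φ.ker ≤ C := by
    intro k hk
    obtain ⟨s, hs⟩ := hne
    obtain ⟨g, hg⟩ := hφ s
    have h1 : g ∈ C := Subgroup.subset_closure (by rw [Set.mem_preimage, hg]; exact hs)
    have h2 : g * k ∈ C := Subgroup.subset_closure (by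
      rw [Set.mem_preimage, map_mul, hg, (MonoidHom.mem_ker).1 hk, mul_one]; exact hs)
    have h3 := C.mul_mem (C.inv_mem h1) h2
    rwa [inv_mul_cancel_left] at h3
  have hmap : C.map φ = ⊤ := by
    rw [MonoidHom.map_closure, Set.image_preimage_eq S hφ, hS]
  rw [eq_top_iff]
  intro g _
  have h1 : φ g ∈ C.map φ := by
    rw [hmap]
    trivial
  obtain ⟨c, hc, hcg⟩ := h1
  have h2 : c⁻¹ * g ∈ φ.ker := by
    rw [MonoidHom.mem_ker, map_mul, map_inv, hcg, inv_mul_cancel]
  have h3 := C.mul_mem hc (hker h2)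
  rwa [mul_inv_cancel_left] at h3

end lift

/-- If a quotient of the countable group `G` carries an admissible law which is strongly
not algebraically recurrent, so does `G`. -/
theorem exists_lift [Countable G] (φ : G →* Q) (hφ : Function.Surjective φ) (ν : PMF Q)
    (hν : Admissible ν) (hs : Strong ν) : ∃ μ : PMF G, Admissible μ ∧ Strong μ := by
  obtain ⟨w, hw1, hw2⟩ := exists_full G
  refine ⟨lift φ hφ w hw1 ν, ⟨?_, ?_⟩, ?_⟩
  · exact lift_symm φ hφ w hw1 hw2 ν hν.1
  · rw [lift_support]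
    exact closure_preimage φ hφ _ hν.2 ν.support_nonempty
  · apply Strong_lift φ
    rw [lift_map]
    exact hs

theorem not_GroupAR_of_lift [Countable G] (φ : G →* Q) (hφ : Function.Surjective φ) (ν : PMF Q)
    (hν : Admissible ν) (hs : Strong ν) : ¬ GroupAR G := by
  obtain ⟨μ, h1, h2⟩ := exists_lift φ hφ ν hν hs
  exact fun h => not_AR_of_Strong h2 (h μ h1)

end Pool.Agent.Q211.AR
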