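import Mathlib

/-!
# Algebraic recurrence: definitions
-/

set_option autoImplicit false

open MeasureTheory

namespace Pool.Agent.Q211.AR

/-- `μ` is admissible: it is symmetric, and its support generates the group. -/
def Admissible {G : Type} [Group G] (μ : PMF G) : Prop :=
  (∀ g : G, μ g⁻¹ = μ g) ∧ Subgroup.closure μ.support = ⊤

/-- The law of the i.i.d. steps `ω 0, ω 1, ...` with law `μ` (all subsets of the countable group
`G` are measurable). -/
noncomputable def steps {G : Type} (μ : PMF G) :
    @Measure (ℕ → G) (@MeasurableSpace.pi ℕ (fun _ => G) (fun _ => ⊤)) :=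
  let _ : MeasurableSpace G := ⊤
  Measure.infinitePi (fun _ : ℕ => μ.toMeasure)

/-- The walk: `walk ω m = ω 0 * ω 1 * ... * ω (m - 1)`. -/
def walk {G : Type} [Group G] (ω : ℕ → G) (m : ℕ) : G := ((List.range m).map ω).prod

/-- The semigroup generated by `walk ω n, walk ω (n + 1), ...`. -/
def tail {G : Type} [Group G] (ω : ℕ → G) (n : ℕ) : Subsemigroup G :=
  Subsemigroup.closure {g | ∃ m, n ≤ m ∧ g = walk ω m}

/-- The pair `(G, μ)` is algebraically recurrent. -/
def AR {G : Type} [Group G] (μ : PMF G) : Prop :=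
  ∀ n : ℕ, 1 ≤ n → ∀ᵐ ω ∂(steps μ), tail ω n = ⊤

/-- The group `G` is algebraically recurrent. -/
def GroupAR (G : Type) [Group G] : Prop := ∀ μ : PMF G, Admissible μ → AR μ

end Pool.Agent.Q211.AR
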