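import Pool.Agent.Q211.AR.Base
import Pool.Agent.H582AR.Gen

/-!
# A heavy tailed law on a countable direct sum of integers

The group is `Multiplicative (ι →₀ ℤ)` for a countably infinite `ι`, coordinates being numbered
by an equivalence `e : ι ≃ ℕ`.  Level `d` is the coordinate `e.symm d`.
-/

set_option autoImplicit false

open MeasureTheory Filter Topology Pool.Agent.H582AR
open scoped ENNReal

namespace Pool.Agent.Q211.AR.Sum

open Pool.Agent.H582AR.Gen

variable {ι : Type} (e : ι ≃ ℕ)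

/-- The direct sum, written multiplicatively. -/
abbrev A (ι : Type) : Type := Multiplicative (ι →₀ ℤ)

/-- Coordinate `z` of `g`. -/
def co (g : A ι) (z : ι) : ℤ := (Multiplicative.toAdd g) z

theorem co_mul (g h : A ι) (z : ι) : co (g * h) z = co g z + co h z := rfl
theorem co_one (z : ι) : co (1 : A ι) z = 0 := rfl
theorem co_inv (g : A ι) (z : ι) : co g⁻¹ z = -co g z := rfl

theorem co_ext {g h : A ι} (hh : ∀ z, co g z = co h z) : g = h := by
  have : Multiplicative.toAdd g = Multiplicative.toAdd h := Finsupp.ext hh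
  exact this

/-- Elements with all levels `≥ d` zero. -/
def H (d : ℕ) : Subgroup (A ι) where
  carrier := {f | ∀ z, d ≤ e z → co f z = 0}
  mul_mem' := by
    intro a b ha hb z hz
    rw [co_mul, ha z hz, hb z hz, add_zero]
  one_mem' := fun z _ => co_one z
  inv_mem' := by
    intro a ha z hz
    rw [co_inv, ha z hz, neg_zero]

theorem mem_H {d : ℕ} {f : A ι} : f ∈ H e d ↔ ∀ z, d ≤ e z → co f z = 0 := Iff.rfl

theorem H_mono {d d' : ℕ} (h : d ≤ d') : H e d ≤ H e d' := fun _ hf z hz => hf z (h.trans hz)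

theorem exists_mem_H (f : A ι) : ∃ d, f ∈ H e d := by
  classical
  refine ⟨(Multiplicative.toAdd f).support.sup (fun z => e z + 1), fun z hz => ?_⟩
  by_contra h
  have h1 : z ∈ (Multiplicative.toAdd f).support := Finsupp.mem_support_iff.2 h
  have h2 : e z + 1 ≤ _ := Finset.le_sup (f := fun z => e z + 1) h1
  omega

/-- The generator of level `d`. -/
noncomputable def x (d : ℕ) : A ι := Multiplicative.ofAdd (Finsupp.single (e.symm d) (1 : ℤ))

theorem co_x (d : ℕ) (z : ι) : co (x e d) z = if e z = d then 1 else 0 := by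
  classical
  show (Finsupp.single (e.symm d) (1 : ℤ)) z = _
  rw [Finsupp.single_apply]
  by_cases h : e z = d
  · subst h
    simp
  · rw [if_neg h, if_neg]
    intro h'
    exact h (by rw [← h']; simp)

/-- Elements of exact level `i` with top coordinate `±1`. -/
def L (i : ℕ) : Set (A ι) :=
  {g | (co g (e.symm i) = 1 ∨ co g (e.symm i) = -1) ∧ ∀ z, i < e z → co g z = 0}

open Classical in
/-- The two elements of level `i`. -/
noncomputable def F (i : ℕ) : Finset (A ι) := {x e i, (x e i)⁻¹}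

theorem mem_F (i : ℕ) (g : A ι) : g ∈ F e i ↔ g = x e i ∨ g = (x e i)⁻¹ := by
  simp [F]

theorem F_nonempty (i : ℕ) : (F e i).Nonempty := ⟨x e i, by simp [mem_F]⟩

theorem inv_mem_F (i : ℕ) (g : A ι) : g⁻¹ ∈ F e i ↔ g ∈ F e i := by
  rw [mem_F, mem_F]
  constructor
  · rintro (h | h)
    · right; rw [← h, inv_inv]
    · left; exact inv_injective h
  · rintro (h | h)
    · right; rw [h]
    · left; rw [h, inv_inv]

theorem F_sub_L (i : ℕ) : ∀ g ∈ F e i, g ∈ L e i := by
  intro g hg
  rw [mem_F] at hg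
  rcases hg with h | h <;> subst h
  · refine ⟨Or.inl (by simp [co_x]), fun z hz => ?_⟩
    rw [co_x, if_neg (by omega)]
  · refine ⟨Or.inr (by simp [co_x, co_inv]), fun z hz => ?_⟩
    rw [co_inv, co_x, if_neg (by omega), neg_zero]

theorem L_sub_H (i d : ℕ) (h : i < d) : ∀ g ∈ L e i, g ∈ H e d :=
  fun g hg z hz => hg.2 z (by omega)

theorem L_not_H (i d : ℕ) (h : d ≤ i) : ∀ g ∈ L e i, g ∉ H e d := by
  intro g hg hH
  have h1 := hH (e.symm i) (by simpa using h)
  rcases hg.1 with h2 | h2 <;> omega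

theorem L_disj (i j : ℕ) (g : A ι) (h1 : g ∈ L e i) (h2 : g ∈ L e j) : i = j := by
  by_contra hne
  rcases lt_or_gt_of_ne hne with h | h
  · exact L_not_H e j j le_rfl g h2 (L_sub_H e i j h g h1)
  · exact L_not_H e i i le_rfl g h1 (L_sub_H e j i h g h2)

/-- Level `i` is used at least twice before any higher level is used. -/
def Bad (i : ℕ) : Set (ℕ → A ι) := {ω | ∃ j m, (∀ l < j, ω l ∈ (H e i : Set (A ι))) ∧
  ω j ∈ L e i ∧ (∀ l < m, ω (j + 1 + l) ∈ (H e i : Set (A ι))) ∧ ω (j + 1 + m) ∈ L e i}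

/-- The subsemigroup of elements whose top coordinate has the sign `σ`. -/
def K (σ : ℕ → ℤ) : Subsemigroup (A ι) where
  carrier := {g | ∃ i, (∀ z, i < e z → co g z = 0) ∧ 0 < σ i * co g (e.symm i)}
  mul_mem' := by
    rintro a b ⟨i, hi1, hi2⟩ ⟨k, hk1, hk2⟩
    rcases lt_trichotomy i k with h | h | h
    · refine ⟨k, fun z hz => ?_, ?_⟩
      · rw [co_mul, hi1 z (by omega), hk1 z hz, add_zero]
      · rw [co_mul, hi1 (e.symm k) (by simpa using h), zero_add]
        exact hk2
    · subst h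
      refine ⟨i, fun z hz => ?_, ?_⟩
      · rw [co_mul, hi1 z hz, hk1 z hz, add_zero]
      · rw [co_mul, mul_add]
        exact add_pos hi2 hk2
    · refine ⟨i, fun z hz => ?_, ?_⟩
      · rw [co_mul, hi1 z hz, hk1 z (by omega), add_zero]
      · rw [co_mul, hk1 (e.symm i) (by simpa using h), add_zero]
        exact hi2

theorem one_notMem_K (σ : ℕ → ℤ) : (1 : A ι) ∉ K e σ := by
  rintro ⟨i, _, h⟩
  rw [co_one, mul_zero] at h
  exact lt_irrefl _ h

theorem walk_zero (ω : ℕ → A ι) : walk ω 0 = 1 := rfl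

theorem walk_succ (ω : ℕ → A ι) (k : ℕ) : walk ω (k + 1) = walk ω k * ω k := by
  simp [walk, List.range_succ]

theorem walk_mem_H (ω : ℕ → A ι) (d k : ℕ) (h : ∀ l < k, ω l ∈ H e d) : walk ω k ∈ H e d := by
  induction k with
  | zero => rw [walk_zero]; exact (H e d).one_mem
  | succ k ih =>
    rw [walk_succ]
    exact (H e d).mul_mem (ih fun l hl => h l (by omega)) (h k (by omega))

theorem exists_level (ω : ℕ → A ι) (k : ℕ) : ∃ d, ∀ j < k, ω j ∈ H e (d + 1) := by
  induction k with
  | zero => exact ⟨0, fun j hj => by omega⟩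
  | succ k ih =>
    obtain ⟨d, hd⟩ := ih
    obtain ⟨d', he⟩ := exists_mem_H e (ω k)
    refine ⟨max d d', fun j hj => ?_⟩
    rcases Nat.lt_succ_iff_lt_or_eq.1 hj with h | h
    · exact H_mono e (by omega) (hd j h)
    · subst h; exact H_mono e (by omega) he

theorem level_eq (ω : ℕ → A ι) (hT : ∀ j, ∃ i, ω j ∈ L e i) (i j : ℕ) (h1 : ω j ∉ H e i)
    (h2 : ω j ∈ H e (i + 1)) : ω j ∈ L e i := by
  obtain ⟨i', hi'⟩ := hT j
  have h3 : i ≤ i' := by
    by_contra hlt
    exact h1 (L_sub_H e i' i (by omega) _ hi')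
  have h4 : i' ≤ i := by
    by_contra hlt
    exact L_not_H e i' (i + 1) (by omega) _ hi' h2
  rwa [le_antisymm h3 h4]

theorem nar_det (ω : ℕ → A ι) (hT : ∀ j, ∃ i, ω j ∈ L e i) (i0 n : ℕ)
    (hbad : ∀ i, i0 ≤ i → ω ∉ Bad e i) (hn : ∃ j < n, ω j ∉ H e i0) :
    (1 : A ι) ∉ tail ω n := by
  classical
  let σ : ℕ → ℤ := fun i => if h : ∃ j, ω j ∉ H e i then co (ω (Nat.find h)) (e.symm i) else 1
  have hX : ∀ k, n ≤ k → walk ω k ∈ K e σ := by
    intro k hk
    obtain ⟨j0, hj0, hj0H⟩ := hn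
    have hex := exists_level e ω k
    set i := Nat.find hex with hi
    have hi1 : ∀ j < k, ω j ∈ H e (i + 1) := Nat.find_spec hex
    have hi0 : i0 ≤ i := by
      by_contra hlt
      exact hj0H (H_mono e (by omega) (hi1 j0 (by omega)))
    have hex3 : ∃ j < k, ω j ∉ H e i := by
      by_cases hii : i = 0
      · refine ⟨j0, by omega, fun h => hj0H (H_mono e (by omega) h)⟩
      · have := Nat.find_min hex (m := i - 1) (by omega)
        push Not at this
        obtain ⟨j, hj, hjH⟩ := this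
        rw [show i - 1 + 1 = i by omega] at hjH
        exact ⟨j, hj, hjH⟩
    have hex2 : ∃ j, ω j ∉ H e i := by
      obtain ⟨j, _, hj⟩ := hex3
      exact ⟨j, hj⟩
    have hσ : σ i = co (ω (Nat.find hex2)) (e.symm i) := dif_pos hex2
    set j := Nat.find hex2 with hj
    have hjH : ω j ∉ H e i := Nat.find_spec hex2
    have hjk : j < k := by
      obtain ⟨j', hj', hj'H⟩ := hex3
      exact lt_of_le_of_lt (Nat.find_min' hex2 hj'H) hj'
    have hjl : ∀ l < j, ω l ∈ H e i := fun l hl => by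
      by_contra h
      exact Nat.find_min hex2 hl h
    have hjL : ω j ∈ L e i := level_eq e ω hT i j hjH (hi1 j hjk)
    have hafter : ∀ m, j + 1 + m < k → ω (j + 1 + m) ∈ H e i := by
      by_contra hcon
      push Not at hcon
      let m := Nat.find hcon
      have hm : j + 1 + m < k ∧ ω (j + 1 + m) ∉ H e i := Nat.find_spec hcon
      have hml : ∀ l < m, ω (j + 1 + l) ∈ H e i := fun l hl => by
        have := Nat.find_min hcon hl
        push Not at this
        exact this (by omega)
      exact hbad i hi0 ⟨j, m, hjl, hjL, hml, level_eq e ω hT i _ hm.2 (hi1 _ hm.1)⟩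
    have hcoord : ∀ m, j + 1 + m ≤ k →
        co (walk ω (j + 1 + m)) (e.symm i) = co (ω j) (e.symm i) := by
      intro m
      induction m with
      | zero =>
        intro _
        rw [add_zero, walk_succ, co_mul, walk_mem_H e ω i j hjl (e.symm i) (by simp), zero_add]
      | succ m ih =>
        intro hm
        rw [← add_assoc, walk_succ, co_mul, ih (by omega),
          hafter m (by omega) (e.symm i) (by simp), add_zero]
    refine ⟨i, fun z hz => walk_mem_H e ω (i + 1) k hi1 z hz, ?_⟩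
    have := hcoord (k - (j + 1)) (by omega)
    rw [show j + 1 + (k - (j + 1)) = k by omega] at this
    rw [this, hσ]
    rcases hjL.1 with h | h <;> rw [h] <;> norm_num
  intro h1
  have hle : tail ω n ≤ K e σ := by
    unfold tail
    rw [Subsemigroup.closure_le]
    rintro _ ⟨k, hk, rfl⟩
    exact hX k hk
  exact one_notMem_K e σ (hle h1)

/-- The heavy tailed law. -/
noncomputable def nu : PMF (A ι) :=
  (tailPMF W2 W2_zero W2_anti W2_lim).bind fun i => PMF.uniformOfFinset (F e i) (F_nonempty e i)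

theorem nu_symm (g : A ι) : nu e g⁻¹ = nu e g := by
  unfold nu
  rw [PMF.bind_apply, PMF.bind_apply]
  apply tsum_congr
  intro i
  congr 1
  rw [PMF.uniformOfFinset_apply, PMF.uniformOfFinset_apply]
  by_cases h : g ∈ F e i
  · rw [if_pos h, if_pos ((inv_mem_F e i g).2 h)]
  · rw [if_neg h, if_neg fun hh => h ((inv_mem_F e i g).1 hh)]

theorem nu_support : (nu e).support = ⋃ i, (F e i : Set (A ι)) := by
  unfold nu
  rw [PMF.support_bind]
  have : (tailPMF W2 W2_zero W2_anti W2_lim).support = Set.univ := by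
    ext k
    rw [PMF.mem_support_iff, tailPMF_apply]
    simp only [Set.mem_univ, iff_true]
    exact (ENNReal.ofReal_pos.2 (sub_pos.2 (W2_strict k))).ne'
  rw [this]
  simp

theorem closure_x (C : Subgroup (A ι)) (h : ∀ d, x e d ∈ C) : C = ⊤ := by
  classical
  rw [eq_top_iff]
  intro g _
  have h1 : ∀ f : ι →₀ ℤ, Multiplicative.ofAdd f ∈ C := by
    intro f
    induction f using Finsupp.induction_linear with
    | zero => exact C.one_mem
    | add a b ha hb => exact C.mul_mem ha hb
    | single z m =>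
      have h2 : (Multiplicative.ofAdd (Finsupp.single z m) : A ι) = (x e (e z)) ^ m := by
        apply co_ext
        intro y
        have h3 : (x e (e z)) ^ m = Multiplicative.ofAdd (m • Finsupp.single z (1 : ℤ)) := by
          unfold x
          rw [← ofAdd_zsmul]
          simp
        rw [h3]
        show (Finsupp.single z m) y = (m • Finsupp.single z (1 : ℤ)) y
        rw [Finsupp.smul_single, smul_eq_mul, mul_one]
      rw [h2]
      exact C.zpow_mem (h _) m
  exact h1 (Multiplicative.toAdd g)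

theorem nu_closure : Subgroup.closure (nu e).support = ⊤ := by
  rw [nu_support]
  apply closure_x e
  intro d
  exact Subgroup.subset_closure (Set.mem_iUnion.2 ⟨d, by simp [mem_F]⟩)

theorem nu_admissible : Admissible (nu e) := ⟨nu_symm e, nu_closure e⟩

section
variable [MeasurableSpace (A ι)] [DiscreteMeasurableSpace (A ι)]

theorem unif_of_subset (i : ℕ) (B : Set (A ι)) (h : ∀ g ∈ F e i, g ∈ B) :
    (PMF.uniformOfFinset (F e i) (F_nonempty e i)).toMeasure B = 1 := by
  rw [PMF.toMeasure_apply_eq_one_iff _ MeasurableSet.of_discrete]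
  intro g hg
  rw [PMF.support_uniformOfFinset] at hg
  exact h g hg

theorem unif_of_disj (i : ℕ) (B : Set (A ι)) (h : ∀ g ∈ F e i, g ∉ B) :
    (PMF.uniformOfFinset (F e i) (F_nonempty e i)).toMeasure B = 0 := by
  rw [PMF.toMeasure_apply_eq_zero_iff _ MeasurableSet.of_discrete]
  rw [Set.disjoint_left]
  intro g hg
  rw [PMF.support_uniformOfFinset] at hg
  exact h g hg

theorem nu_H (d : ℕ) : (nu e).toMeasure (H e d : Set (A ι)) = ENNReal.ofReal (1 - W2 d) := by
  unfold nu
  rw [PMF.toMeasure_bind_apply _ _ _ MeasurableSet.of_discrete,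
    ← tailPMF_lt W2 W2_zero W2_anti W2_lim d, PMF.toMeasure_apply _ MeasurableSet.of_discrete]
  apply tsum_congr
  intro i
  by_cases h : i < d
  · rw [unif_of_subset e i _ fun g hg => L_sub_H e i d h g (F_sub_L e i g hg), mul_one,
      Set.indicator_of_mem (show i ∈ {k | k < d} from h)]
  · rw [unif_of_disj e i _ fun g hg => L_not_H e i d (by omega) g (F_sub_L e i g hg), mul_zero,
      Set.indicator_of_notMem (show i ∉ {k | k < d} from h)]

theorem nu_L (d : ℕ) : (nu e).toMeasure (L e d) = ENNReal.ofReal (W2 d - W2 (d + 1)) := by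
  unfold nu
  rw [PMF.toMeasure_bind_apply _ _ _ MeasurableSet.of_discrete]
  rw [tsum_eq_single d]
  · rw [unif_of_subset e d _ fun g hg => F_sub_L e d g hg, mul_one, tailPMF_apply]
  · intro i hi
    rw [unif_of_disj e i _ fun g hg hL => hi (L_disj e i d g (F_sub_L e i g hg) hL), mul_zero]

theorem nu_T : (nu e).toMeasure {g | ∃ i, g ∈ L e i} = 1 := by
  rw [PMF.toMeasure_apply_eq_one_iff _ MeasurableSet.of_discrete, nu_support]
  intro g hg
  obtain ⟨i, hi⟩ := Set.mem_iUnion.1 hg
  exact ⟨i, F_sub_L e i g hi⟩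

theorem prob_Bad (i : ℕ) :
    Measure.infinitePi (fun _ : ℕ => (nu e).toMeasure) (Bad e i) ≤
      ENNReal.ofReal ((1 / ((i : ℝ) + 2)) ^ 2) := by
  have hW := W2_pos i
  have hW1 : W2 i ≤ 1 := W2_zero ▸ W2_anti (Nat.zero_le _)
  have hcompl : 1 - (nu e).toMeasure (H e i : Set (A ι)) = ENNReal.ofReal (W2 i) := by
    rw [nu_H, ← ENNReal.ofReal_one, ← ENNReal.ofReal_sub _ (by linarith)]
    congr 1; ring
  refine (two_hits _ _ _).trans ?_
  rw [hcompl, nu_L, ENNReal.ofReal_pow (by positivity), ← W2_ratio,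
    ENNReal.ofReal_div_of_pos hW, ENNReal.div_eq_inv_mul, mul_comm]

theorem nu_strong' : ∀ᵐ ω ∂(Measure.infinitePi (fun _ : ℕ => (nu e).toMeasure)),
    ∃ n : ℕ, 1 ≤ n ∧ (1 : A ι) ∉ tail ω n := by
  have h1 : ∀ᵐ ω ∂(Measure.infinitePi (fun _ : ℕ => (nu e).toMeasure)),
      ∀ j, ∃ i, ω j ∈ L e i := by
    rw [ae_all_iff]
    intro j
    have h2 : {ω : ℕ → A ι | ¬ ∃ i, ω j ∈ L e i}
        = (fun ω : ℕ → A ι => ω j) ⁻¹' {g | ∃ i, g ∈ L e i}ᶜ := rfl
    rw [ae_iff, h2, ← Measure.map_apply (measurable_pi_apply j) MeasurableSet.of_discrete,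
      Measure.infinitePi_map_eval, prob_compl_eq_one_sub MeasurableSet.of_discrete, nu_T,
      tsub_self]
  have h2 : ∀ᵐ ω ∂(Measure.infinitePi (fun _ : ℕ => (nu e).toMeasure)),
      ∀ᶠ i in atTop, ω ∉ Bad e i := by
    apply ae_eventually_notMem
    have hs : Summable fun i : ℕ => (1 / ((i : ℝ) + 2)) ^ 2 := by
      have h3 : Summable fun i : ℕ => (1 : ℝ) / ((i : ℝ)) ^ 2 :=
        Real.summable_one_div_nat_pow.2 one_lt_two
      have h4 := (summable_nat_add_iff 2).2 h3
      refine h4.congr fun i => ?_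
      push_cast
      rw [div_pow, one_pow]
    refine ne_top_of_le_ne_top ?_ (ENNReal.tsum_le_tsum (prob_Bad e))
    rw [← ENNReal.ofReal_tsum_of_nonneg (fun i => by positivity) hs]
    exact ENNReal.ofReal_ne_top
  have h3 : ∀ᵐ ω ∂(Measure.infinitePi (fun _ : ℕ => (nu e).toMeasure)),
      ∀ i0, ∃ j, ω j ∉ H e i0 := by
    rw [ae_all_iff]
    intro i0
    rw [ae_iff]
    have hlt : (nu e).toMeasure (H e i0 : Set (A ι)) < 1 := by
      rw [nu_H, ENNReal.ofReal_lt_one]
      linarith [W2_pos i0]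
    have := never (nu e).toMeasure _ hlt 0
    convert this using 2
    ext ω
    simp
  filter_upwards [h1, h2, h3] with ω hω1 hω2 hω3
  obtain ⟨i0, hi0⟩ := eventually_atTop.1 hω2
  obtain ⟨j, hj⟩ := hω3 i0
  exact ⟨j + 1, by omega, nar_det e ω hω1 i0 (j + 1) hi0 ⟨j, Nat.lt_succ_self j, hj⟩⟩

end

theorem nu_strong : Strong (nu e) := by
  let _ : MeasurableSpace (A ι) := ⊤
  have : DiscreteMeasurableSpace (A ι) := ⟨fun _ => trivial⟩
  exact nu_strong' e

end Pool.Agent.Q211.AR.Sum
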